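import Pool.Agent.Helper14.TT.StL

/-!
# Project TT, module TriT: triangular system of symbols modulo 2, twisted path
-/

set_option autoImplicit false

namespace Pool.Agent.Helper39.TT

open Pool.Agent.Helper14.TT Pool.Agent.Helper14.CV

section comm

variable {E : Type} [Ring E]

private theorem reorder_Tri (D Y : E) (h : D * Y = Y * D) (i j : ℕ) :
    (D * Y * (D + Y)) ^ i * (D ^ 2 * Y ^ 2) ^ j =
      D ^ (i + 2 * j) * (D + Y) ^ i * Y ^ (i + 2 * j) := by
  have hDY : Commute D Y := h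
  have hDS : Commute D (D + Y) := (Commute.refl D).add_right hDY
  have hYS : Commute Y (D + Y) := hDY.symm.add_right (Commute.refl Y)
  have h1 : (D * Y * (D + Y)) ^ i = D ^ i * Y ^ i * (D + Y) ^ i := by
    rw [(hDS.mul_left hYS).mul_pow, hDY.mul_pow]
  have h2 : (D ^ 2 * Y ^ 2) ^ j = D ^ (2 * j) * Y ^ (2 * j) := by
    rw [(hDY.pow_pow 2 2).mul_pow, ← pow_mul, ← pow_mul]
  have h3 : (D + Y) ^ i * D ^ (2 * j) = D ^ (2 * j) * (D + Y) ^ i :=
    (hDS.pow_pow (2 * j) i).eq.symm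
  have h4 : Y ^ i * D ^ (2 * j) = D ^ (2 * j) * Y ^ i := (hDY.pow_pow (2 * j) i).eq.symm
  have h5 : Y ^ i * (D + Y) ^ i = (D + Y) ^ i * Y ^ i := (hYS.pow_pow i i).eq
  calc (D * Y * (D + Y)) ^ i * (D ^ 2 * Y ^ 2) ^ j
      = D ^ i * Y ^ i * ((D + Y) ^ i * D ^ (2 * j)) * Y ^ (2 * j) := by
        rw [h1, h2]
        simp only [mul_assoc]
    _ = D ^ i * (Y ^ i * D ^ (2 * j)) * (D + Y) ^ i * Y ^ (2 * j) := by
        rw [h3]
        simp only [mul_assoc]
    _ = D ^ i * D ^ (2 * j) * (Y ^ i * (D + Y) ^ i) * Y ^ (2 * j) := by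
        rw [h4]
        simp only [mul_assoc]
    _ = D ^ (i + 2 * j) * (D + Y) ^ i * Y ^ (i + 2 * j) := by
        rw [h5, pow_add D i (2 * j), pow_add Y i (2 * j)]
        simp only [mul_assoc]

end comm

section main

variable {r s : ℕ}

private theorem dy_pow_Tri (hBb : StBb) (p q m : ℕ) (hp : p < 2 ^ r) (hq : m + q < 2 ^ s) :
    (dy ^ m : Module.End (ZMod 2) (Fn (2 ^ r) (2 ^ s))) (bb p (m + q)) = bb p q := by
  induction m with
  | zero =>
    rw [pow_zero, zero_add]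
    rfl
  | succ m ih =>
    have h1 : m + 1 + q = (m + q) + 1 := by ring
    rw [pow_succ, Module.End.mul_apply, h1,
      (hBb r s).2.2.1 p (m + q) hp (by omega)]
    exact ih (by omega)

private theorem dx_pow_Tri (hBb : StBb) (p q m : ℕ) (hq : q < 2 ^ s) (hp : m + p < 2 ^ r) :
    (dx ^ m : Module.End (ZMod 2) (Fn (2 ^ r) (2 ^ s))) (bb (m + p) q) = bb p q := by
  induction m with
  | zero =>
    rw [pow_zero, zero_add]
    rfl
  | succ m ih =>
    have h1 : m + 1 + p = (m + p) + 1 := by ring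
    rw [pow_succ, Module.End.mul_apply, h1,
      (hBb r s).2.1 (m + p) q (by omega) hq]
    exact ih (by omega)

private theorem dy_kill_Tri (hBb : StBb) (p q m : ℕ) (hp : p < 2 ^ r) (hq : q < 2 ^ s)
    (h : q < m) :
    (dy ^ m : Module.End (ZMod 2) (Fn (2 ^ r) (2 ^ s))) (bb p q) = 0 := by
  obtain ⟨c, rfl⟩ : ∃ c, m = c + (1 + q) := ⟨m - (1 + q), by omega⟩
  rw [pow_add, pow_add, Module.End.mul_apply, Module.End.mul_apply]
  have h1 := dy_pow_Tri (r := r) (s := s) hBb p 0 q hp (by omega)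
  rw [add_zero] at h1
  rw [h1, pow_one, (hBb r s).2.2.2.2.1 p hp, map_zero]

private theorem sum_pow_Tri (hBb : StBb) (p m : ℕ) (hp : m + p < 2 ^ r) (hs : 0 < 2 ^ s) :
    ((dx + dy) ^ m : Module.End (ZMod 2) (Fn (2 ^ r) (2 ^ s))) (bb (m + p) 0) = bb p 0 := by
  induction m with
  | zero =>
    rw [pow_zero, zero_add]
    rfl
  | succ m ih =>
    have h1 : m + 1 + p = (m + p) + 1 := by ring
    rw [pow_succ, Module.End.mul_apply, h1, LinearMap.add_apply,
      (hBb r s).2.1 (m + p) 0 (by omega) hs,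
      (hBb r s).2.2.2.2.1 (m + p + 1) (by omega), add_zero]
    exact ih (by omega)

private theorem low_pow_Tri (hLow0 : StLow0) (O : Module.End (ZMod 2) (Fn (2 ^ r) (2 ^ s)))
    (k : ℤ) (h : Low O k) (i : ℕ) : Low (O ^ i) ((i : ℤ) * k) := by
  induction i with
  | zero =>
    rw [pow_zero, Nat.cast_zero, zero_mul]
    exact (hLow0 r s).2.2.2.2.1
  | succ i ih =>
    have h1 : ((i + 1 : ℕ) : ℤ) * k = (i : ℤ) * k + k := by
      push_cast
      ring
    rw [pow_succ, h1]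
    exact (hLow0 r s).1 _ _ _ _ ih h

private theorem low_L3_Tri (hLow0 : StLow0) :
    Low (L3 : Module.End (ZMod 2) (Fn (2 ^ r) (2 ^ s))) 3 := by
  have hx := (hLow0 r s).2.2.2.2.2.1
  have hy := (hLow0 r s).2.2.2.2.2.2.1
  have h1 := (hLow0 r s).1 _ _ _ _ hx hy
  have h2 := (hLow0 r s).2.1 _ _ _ hx hy
  have h3 := (hLow0 r s).1 _ _ _ _ h1 h2
  exact h3

private theorem low_L5_Tri (hLow0 : StLow0) :
    Low (L5 : Module.End (ZMod 2) (Fn (2 ^ r) (2 ^ s))) 4 := by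
  have hx := low_pow_Tri hLow0 _ _ (hLow0 r s).2.2.2.2.2.1 2
  have hy := low_pow_Tri hLow0 _ _ (hLow0 r s).2.2.2.2.2.2.1 2
  have h1 := (hLow0 r s).1 _ _ _ _ hx hy
  have h2 : ((2 : ℕ) : ℤ) * 1 + ((2 : ℕ) : ℤ) * 1 = 4 := by norm_num
  rw [h2] at h1
  exact h1

private theorem low_all_Tri (hLow0 : StLow0) (i j : ℕ) :
    Low (L3 ^ i * L5 ^ j : Module.End (ZMod 2) (Fn (2 ^ r) (2 ^ s)))
      ((i : ℤ) * 3 + (j : ℤ) * 4) :=
  (hLow0 r s).1 _ _ _ _ (low_pow_Tri hLow0 _ _ (low_L3_Tri hLow0) i)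
    (low_pow_Tri hLow0 _ _ (low_L5_Tri hLow0) j)

private theorem form_Tri (hLow0 : StLow0) (i j : ℕ) :
    (L3 ^ i * L5 ^ j : Module.End (ZMod 2) (Fn (2 ^ r) (2 ^ s))) =
      dx ^ (i + 2 * j) * (dx + dy) ^ i * dy ^ (i + 2 * j) :=
  reorder_Tri _ _ (hLow0 r s).2.2.2.2.2.2.2.1 i j

end main

/-- TRIT. -/
theorem hTriT (hEx : StEx) (hLow0 : StLow0) (hBb : StBb) (hLed : StLed) (hItr : ItrT) :
    TriT := by
  intro l r s i' j' hl hs1 hrs hi' hj' hr hs
  have hr1 : 1 ≤ r := by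
    rcases Nat.eq_zero_or_pos r with h | h
    · subst h
      simp at hr
    · exact h
  obtain ⟨F1, F3, hRel, hF1, hlead⟩ := hLed r s (2 * i' + 2 * j' + 1) (i' + 2 * j')
    (by omega) hr hs
  obtain ⟨G, hG, hGF, -⟩ := hEx (ZMod 2) inferInstance r s F1 F3 hRel
  have hd : ((2 * i' + 2 * j' + 1 : ℕ) : ℤ) + ((i' + 2 * j' : ℕ) : ℤ) - 1 =
      ((3 * i' + 4 * j' : ℕ) : ℤ) := by
    push_cast
    ring
  have hd2 : ((2 * i' + 2 * j' + 1 : ℕ) : ℤ) + ((i' + 2 * j' : ℕ) : ℤ) - 2 =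
      ((3 * i' + 4 * j' : ℕ) : ℤ) - 1 := by
    push_cast
    ring
  rw [hd] at hF1
  rw [hd2] at hlead
  have hI := hItr l r s G F1 (3 * i' + 4 * j') hl hr1 hs1 hrs hG (fun x y => (hGF x y).symm) hF1
  obtain ⟨lead, hlead0⟩ : ∃ lead : Fn (2 ^ r) (2 ^ s), lead =
      (bb (2 * i' + 2 * j' + 1 - 1) (i' + 2 * j') +
        if i' + 2 * j' = 0 then 0 else bb (2 * i' + 2 * j' + 1) (i' + 2 * j' - 1)) := ⟨_, rfl⟩
  rw [← hlead0] at hlead
  -- the value is the value on the leading form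
  have hval : ∀ i j : ℕ, 3 * (i + 1) + 4 * (j + sh l) = 3 * i' + 4 * j' →
      evXb l (2 ^ (r + 1)) G i j =
      ((L3 ^ (i + 1) * L5 ^ (j + sh l) : Module.End (ZMod 2) (Fn (2 ^ r) (2 ^ s))) lead) 0 0 := by
    intro i j hij
    rw [(hI i j).2 hij]
    have h1 := low_all_Tri (r := r) (s := s) hLow0 (i + 1) (j + sh l) _ _ hlead
    have h2 : ((3 * i' + 4 * j' : ℕ) : ℤ) - 1 - (((i + 1 : ℕ) : ℤ) * 3 + ((j + sh l : ℕ) : ℤ) * 4)
        = -1 := by
      rw [← hij]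
      push_cast
      ring
    rw [h2] at h1
    have h3 := (hLow0 r s).2.2.2.2.2.2.2.2.2.2.2.2 _ h1
    rw [map_add] at h3
    have h4 := congrFun (congrFun h3 0) 0
    have h5 : ∀ a b : ZMod 2, a + b = 0 → a = b := by decide
    exact h5 _ _ h4
  have hr' : 2 * i' + 2 * j' < 2 ^ r := by omega
  have hsub : 2 * i' + 2 * j' + 1 - 1 = 2 * i' + 2 * j' := by omega
  -- terms killed by a high power of dy
  have hkill : ∀ m : ℕ, i' + 2 * j' < m →
      (dy ^ m : Module.End (ZMod 2) (Fn (2 ^ r) (2 ^ s))) lead = 0 := by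
    intro m hm
    rw [hlead0, map_add, hsub, dy_kill_Tri hBb _ _ m hr' hs hm, zero_add]
    split_ifs with h0
    · exact map_zero _
    · exact dy_kill_Tri hBb _ _ m hr (by omega) (by omega)
  have hmain : (dy ^ (i' + 2 * j') : Module.End (ZMod 2) (Fn (2 ^ r) (2 ^ s))) lead =
      bb (2 * i' + 2 * j') 0 := by
    rw [hlead0, map_add, hsub]
    have h1 := dy_pow_Tri (r := r) (s := s) hBb (2 * i' + 2 * j') 0 (i' + 2 * j') hr' (by omega)
    rw [add_zero] at h1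
    rw [h1]
    split_ifs with h0
    · rw [map_zero, add_zero]
    · rw [dy_kill_Tri hBb _ _ _ hr (by omega) (by omega), add_zero]
  have hs0 : 0 < 2 ^ s := by positivity
  refine ⟨G, hG, ?_, ?_⟩
  · have e1 : i' - 1 + 1 = i' := by omega
    have e2 : j' - sh l + sh l = j' := by omega
    rw [hval (i' - 1) (j' - sh l) (by rw [e1, e2]), e1, e2, form_Tri hLow0,
      Module.End.mul_apply, Module.End.mul_apply, hmain]
    have h1 : 2 * i' + 2 * j' = i' + (i' + 2 * j') := by ring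
    rw [h1, sum_pow_Tri hBb (i' + 2 * j') i' (by omega) hs0]
    have h2 := dx_pow_Tri (r := r) (s := s) hBb 0 0 (i' + 2 * j') hs0 (by omega)
    rw [add_zero] at h2
    rw [h2]
    simp [bb]
  · intro i j hne
    rcases lt_trichotomy (3 * (i + 1) + 4 * (j + sh l)) (3 * i' + 4 * j') with h | h | h
    · exact Or.inl h
    · right
      refine ⟨h, ?_⟩
      by_contra hcon
      apply hne
      rw [hval i j h, form_Tri hLow0, Module.End.mul_apply, Module.End.mul_apply,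
        hkill ((i + 1) + 2 * (j + sh l)) (by omega), map_zero, map_zero]
      rfl
    · exact absurd ((hI i j).1 h) hne

end Pool.Agent.Helper39.TT

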